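import Pool.Agent.Helper15.HS.GoalsC
import Pool.Agent.Helper16.RK.Calc

/-! # MCAL: calculus of the entrywise derivatives of matrix functions -/

open Complex Metric Set Filter Topology MeasureTheory
open scoped ContDiff ComplexConjugate ComplexOrder Manifold Matrix

namespace Pool.Agent.Helper80.HS

open Pool.Agent.Helper95.Lin Pool.Agent.Helper16.Abund Pool.Agent.Helper92.Orb
  Pool.Agent.Helper10.SP Pool.Agent.Helper95.RK Pool.Agent.Helper57.HS Pool.Agent.Helper15.HS
  Pool.Agent.Helper16.RK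

variable {n m : ℕ} {W : Set (Cn n)} {x : Cn n}

theorem isDer_cd (hWIRT : S_WIRT) (hW : IsOpen W) (hx : x ∈ W) (k : Fin n) :
    IsDer W x (fun f => cd k f x) := by
  constructor
  · intro f g hf hg
    exact ((hWIRT W hW f g hf hg).2.1 k x hx).1
  · intro f g hf hg
    exact ((hWIRT W hW f g hf hg).2.2.1 k x hx).1
  · intro f g h
    exact (Pool.Agent.Helper83.SP.cd_congr hW h k hx).1
  · intro c
    exact (Pool.Agent.Helper83.SP.cd_const c k x).1
  · intro F hF hp
    exact (cd_log hW hx F hF hp k).1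

theorem isDer_cdb (hWIRT : S_WIRT) (hW : IsOpen W) (hx : x ∈ W) (k : Fin n) :
    IsDer W x (fun f => cdb k f x) := by
  constructor
  · intro f g hf hg
    exact ((hWIRT W hW f g hf hg).2.1 k x hx).2
  · intro f g hf hg
    exact ((hWIRT W hW f g hf hg).2.2.1 k x hx).2
  · intro f g h
    exact (Pool.Agent.Helper83.SP.cd_congr hW h k hx).2
  · intro c
    exact (Pool.Agent.Helper83.SP.cd_const c k x).2
  · intro F hF hp
    exact (cd_log hW hx F hF hp k).2

/-- The product rule for matrices, for a derivation. -/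
theorem IsDer_mulM {D : (Cn n → ℂ) → ℂ} (h : IsDer W x D)
    (X Y : Cn n → Matrix (Fin m) (Fin m) ℂ)
    (hX : ∀ i j, ContDiffOn ℝ ∞ (fun x => X x i j) W)
    (hY : ∀ i j, ContDiffOn ℝ ∞ (fun x => Y x i j) W) (i j : Fin m) :
    D (fun y => (X y * Y y) i j) =
      ∑ p, D (fun y => X y i p) * Y x p j + ∑ p, X x i p * D (fun y => Y y p j) := by
  have e : (fun y => (X y * Y y) i j) = fun y => ∑ p, X y i p * Y y p j := by
    funext y; rw [Matrix.mul_apply]
  rw [e, h.sum Finset.univ (fun p y => X y i p * Y y p j) (fun p _ => (hX i p).mul (hY p j)),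
    ← Finset.sum_add_distrib]
  refine Finset.sum_congr rfl fun p _ => ?_
  rw [h.mul _ _ (hX i p) (hY p j)]
  ring

theorem cdM_apply (k : Fin n) (X : Cn n → Matrix (Fin m) (Fin m) ℂ) (x : Cn n) (i j : Fin m) :
    cdM k X x i j = cd k (fun y => X y i j) x := rfl

theorem cdbM_apply (k : Fin n) (X : Cn n → Matrix (Fin m) (Fin m) ℂ) (x : Cn n) (i j : Fin m) :
    cdbM k X x i j = cdb k (fun y => X y i j) x := rfl

theorem posDef_det {A : Matrix (Fin m) (Fin m) ℂ} (h : A.PosDef) :
    A.det.im = 0 ∧ 0 < A.det.re := by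
  have := h.det_pos
  rw [Complex.pos_iff] at this
  exact ⟨this.2.symm, this.1⟩

theorem posDef_det_ne {A : Matrix (Fin m) (Fin m) ℂ} (h : A.PosDef) : A.det ≠ 0 :=
  h.det_pos.ne'

theorem mcal (hWIRT : S_WIRT) : S_MCAL := by
  intro n m W hW X Y hX hY
  refine ⟨?_, ?_, ?_, ?_, ?_⟩
  · intro k i j
    exact ⟨((hWIRT W hW _ _ (hX i j) (hX i j)).1 k).1, ((hWIRT W hW _ _ (hX i j) (hX i j)).1 k).2⟩
  · intro i j
    simp only [Matrix.mul_apply]
    exact ContDiffOn.sum fun p _ => (hX i p).mul (hY p j)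
  · intro x hx k
    refine ⟨?_, ?_, ?_, ?_, ?_⟩
    · ext i j
      rw [cdM_apply, IsDer_mulM (isDer_cd hWIRT hW hx k) X Y hX hY i j, Matrix.add_apply,
        Matrix.mul_apply, Matrix.mul_apply]
      rfl
    · ext i j
      rw [cdbM_apply, IsDer_mulM (isDer_cdb hWIRT hW hx k) X Y hX hY i j, Matrix.add_apply,
        Matrix.mul_apply, Matrix.mul_apply]
      rfl
    · ext i j
      exact ((hWIRT W hW _ _ (hX j i) (hX j i)).2.2.2.1 k x hx).1
    · ext i j
      exact ((hWIRT W hW _ _ (hX j i) (hX j i)).2.2.2.1 k x hx).2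
    · intro l
      ext i j
      exact ((hWIRT W hW _ _ (hX i j) (hX i j)).2.2.2.2.1 k l x hx).2.2
  · intro hd
    refine ⟨fun i j => inv_smooth X hX hd i j, fun x hx k => ⟨?_, ?_⟩⟩
    · ext i j
      rw [cdM_apply, (isDer_cd hWIRT hW hx k).inv hx X hX hd i j, Matrix.neg_apply,
        Matrix.mul_apply]
      congr 1
      simp only [Matrix.mul_apply, Finset.sum_mul]
      rw [Finset.sum_comm]
      rfl
    · ext i j
      rw [cdbM_apply, (isDer_cdb hWIRT hW hx k).inv hx X hX hd i j, Matrix.neg_apply,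
        Matrix.mul_apply]
      congr 1
      simp only [Matrix.mul_apply, Finset.sum_mul]
      rw [Finset.sum_comm]
      rfl
  · intro hp
    have hp' : ∀ y ∈ W, ((X y).det).im = 0 ∧ 0 < ((X y).det).re := fun y hy => posDef_det (hp y hy)
    refine ⟨?_, fun x hx k => ⟨?_, ?_⟩⟩
    · have h1 : ContDiffOn ℝ ∞ (fun y => (X y).det.re) W :=
        Complex.reCLM.contDiff.comp_contDiffOn (det_smooth X hX)
      exact h1.log fun y hy => (hp' y hy).2.ne'
    · have := (isDer_cd hWIRT hW hx k).logdet hx X hX hp'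
      simp only [ld]
      rw [this, Matrix.trace, Finset.sum_comm]
      refine Finset.sum_congr rfl fun p _ => ?_
      rw [Matrix.diag_apply, Matrix.mul_apply]
      refine Finset.sum_congr rfl fun l _ => ?_
      rw [cdM_apply, mul_comm]
    · have := (isDer_cdb hWIRT hW hx k).logdet hx X hX hp'
      simp only [ld]
      rw [this, Matrix.trace, Finset.sum_comm]
      refine Finset.sum_congr rfl fun p _ => ?_
      rw [Matrix.diag_apply, Matrix.mul_apply]
      refine Finset.sum_congr rfl fun l _ => ?_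
      rw [cdbM_apply, mul_comm]

end Pool.Agent.Helper80.HS
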