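import Pool.Agent.Helper80.HS.CSY

/-! # CL: the Chern-Lu identity for a Hermitian metric -/

open Complex Metric Set Filter Topology MeasureTheory
open scoped ContDiff ComplexConjugate ComplexOrder Manifold Matrix

namespace Pool.Agent.Helper80.HS

open Pool.Agent.Helper95.Lin Pool.Agent.Helper16.Abund Pool.Agent.Helper92.Orb
  Pool.Agent.Helper10.SP Pool.Agent.Helper95.RK Pool.Agent.Helper57.HS Pool.Agent.Helper15.HS
  Pool.Agent.Helper16.RK

variable {n m : ℕ}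

open scoped MatrixOrder in
theorem psd_factor {ι : Type*} [Fintype ι] {P : Matrix ι ι ℂ} (h : P.PosSemidef) :
    ∃ S : Matrix ι ι ℂ, P = Sᴴ * S := by
  classical
  obtain ⟨B, hB⟩ := CStarAlgebra.nonneg_iff_eq_star_mul_self.mp h.nonneg
  exact ⟨B, hB⟩

/-- `tr (B Y Bᴴ K) ≥ 0` for positive semidefinite `Y`, `K`. -/
theorem tr_nonneg {Y K : Matrix (Fin m) (Fin m) ℂ} (hY : Y.PosSemidef) (hK : K.PosSemidef)
    (B : Matrix (Fin m) (Fin m) ℂ) : 0 ≤ Matrix.trace (B * Y * Bᴴ * K) := by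
  obtain ⟨S, hS⟩ := psd_factor hK
  have h1 : Matrix.trace (B * Y * Bᴴ * K) = Matrix.trace ((S * B) * Y * (S * B)ᴴ) := by
    rw [hS, Matrix.conjTranspose_mul]
    calc Matrix.trace (B * Y * Bᴴ * (Sᴴ * S)) = Matrix.trace ((B * Y * Bᴴ * Sᴴ) * S) := by
          rw [Matrix.mul_assoc (B * Y * Bᴴ)]
      _ = Matrix.trace (S * (B * Y * Bᴴ * Sᴴ)) := Matrix.trace_mul_comm _ _
      _ = _ := by simp only [Matrix.mul_assoc]
  rw [h1]
  exact (hY.mul_mul_conjTranspose_same (S * B)).trace_nonneg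

/-- The double pairing of a positive semidefinite matrix with the form `tr (A_k Y A_lᴴ K)`. -/
theorem sum_tr_eq {ι : Type*} [Fintype ι] {P : Matrix ι ι ℂ}
    (S : Matrix ι ι ℂ) (hS : P = Sᴴ * S)
    (A : ι → Matrix (Fin m) (Fin m) ℂ) (Y K : Matrix (Fin m) (Fin m) ℂ) :
    ∑ k, ∑ l, P l k * Matrix.trace (A k * Y * (A l)ᴴ * K) =
      ∑ a, Matrix.trace ((∑ k, S a k • A k) * Y * (∑ k, S a k • A k)ᴴ * K) := by
  have h1 : ∀ a, Matrix.trace ((∑ k, S a k • A k) * Y * (∑ k, S a k • A k)ᴴ * K) =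
      ∑ k, ∑ l, (star (S a l) * S a k) * Matrix.trace (A k * Y * (A l)ᴴ * K) := by
    intro a
    rw [Matrix.conjTranspose_sum, Finset.sum_mul, Finset.sum_mul, Finset.sum_mul,
      Matrix.trace_sum]
    refine Finset.sum_congr rfl fun k _ => ?_
    rw [Finset.mul_sum, Finset.sum_mul, Matrix.trace_sum]
    refine Finset.sum_congr rfl fun l _ => ?_
    rw [Matrix.conjTranspose_smul]
    simp only [Matrix.smul_mul, Matrix.mul_smul, Matrix.trace_smul, smul_eq_mul]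
    ring
  simp only [h1]
  symm
  rw [Finset.sum_comm]
  refine Finset.sum_congr rfl fun k _ => ?_
  rw [Finset.sum_comm]
  refine Finset.sum_congr rfl fun l _ => ?_
  rw [← Finset.sum_mul, hS, Matrix.mul_apply]
  rfl

theorem sum4 (f : Fin n → Fin n → Fin n → Fin n → ℂ) :
    ∑ k, ∑ l, ∑ i, ∑ j, f i j k l = ∑ i, ∑ j, ∑ k, ∑ l, f i j k l := by
  have h1 : ∀ k, ∑ l, ∑ i, ∑ j, f i j k l = ∑ i, ∑ j, ∑ l, f i j k l := by
    intro k
    rw [Finset.sum_comm]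
    exact Finset.sum_congr rfl fun i _ => Finset.sum_comm
  simp only [h1]
  rw [Finset.sum_comm]
  exact Finset.sum_congr rfl fun i _ => Finset.sum_comm

theorem sum_tr_nonneg {ι : Type*} [Fintype ι] {P : Matrix ι ι ℂ} (hP : P.PosSemidef)
    (A : ι → Matrix (Fin m) (Fin m) ℂ) {Y K : Matrix (Fin m) (Fin m) ℂ} (hY : Y.PosSemidef)
    (hK : K.PosSemidef) :
    0 ≤ ∑ k, ∑ l, P l k * Matrix.trace (A k * Y * (A l)ᴴ * K) := by
  obtain ⟨S, hS⟩ := psd_factor hP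
  rw [sum_tr_eq S hS]
  exact Finset.sum_nonneg fun a _ => tr_nonneg hY hK _

theorem cl (hMCAL : S_MCAL) (hCSY : S_CSY) (hCLG : S_CLG) : S_CL := by
  intro n W hW Q H η hQ hQp hrho hHs hHp x hx
  have hd : ∀ x ∈ W, (H x).det ≠ 0 := fun y hy => posDef_det_ne (hHp y hy)
  have hh : ∀ x ∈ W, (H x).IsHermitian := fun y hy => (hHp y hy).1
  have hK : ((Q x)⁻¹).PosSemidef := (hQp x hx).inv.posSemidef
  have hA0 : 0 ≤ ∑ k, ∑ l, (Q x)⁻¹ l k *
      Matrix.trace (Adf H Q k x * H x * (Adf H Q l x)ᴴ * (Q x)⁻¹) :=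
    sum_tr_nonneg hK (fun k => Adf H Q k x) (hHp x hx).posSemidef hK
  have hA1 : 0 ≤ AAt H Q x := by
    rw [AAt]
    exact (Complex.nonneg_iff.1 hA0).1
  refine ⟨hA1, ?_⟩
  have h1 := (hMCAL W hW H H hHs hHs).1
  have hGs : ∀ k i j, ContDiffOn ℝ ∞ (fun y => Gam H k y i j) W := by
    intro k
    have h4 := ((hMCAL W hW H H hHs hHs).2.2.2.1 hd).1
    exact (hMCAL W hW (cdM k H) (fun y => (H y)⁻¹) (fun a b => (h1 k a b).1) h4).2.1
  have hGe : ∀ y ∈ W, ∀ k, cdM k H y = Gam H k y * H y := by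
    intro y hy k
    rw [Gam, Matrix.mul_assoc, Matrix.nonsing_inv_mul _ (hd y hy).isUnit, Matrix.mul_one]
  have hM := (hCLG W hW Q H η (Gam H) hQ hQp hrho hHs hh hGs hGe x hx).2.2.2
  rw [hM]
  have e3 : ∑ k, ∑ l, (Q x)⁻¹ l k * Matrix.trace (cdbM l (Gam H k) x * H x * (Q x)⁻¹) =
      - crvP H (Q x)⁻¹ (Q x)⁻¹ x := by
    have a1 : ∀ k l, Matrix.trace (cdbM l (Gam H k) x * H x * (Q x)⁻¹) =
        - ∑ i, ∑ j, (Q x)⁻¹ j i * crv H x i j k l := by
      intro k l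
      rw [Matrix.trace, ← Finset.sum_neg_distrib]
      refine Finset.sum_congr rfl fun i _ => ?_
      rw [Matrix.diag_apply, Matrix.mul_apply, ← Finset.sum_neg_distrib]
      refine Finset.sum_congr rfl fun j _ => ?_
      rw [(hCSY W hW H hHp hHs x hx).1 i j k l]
      ring
    simp only [a1, crvP]
    have a2 : ∀ k l, (Q x)⁻¹ l k * -∑ i, ∑ j, (Q x)⁻¹ j i * crv H x i j k l =
        - ∑ i, ∑ j, (Q x)⁻¹ j i * (Q x)⁻¹ l k * crv H x i j k l := by
      intro k l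
      rw [mul_neg, Finset.mul_sum]
      congr 1
      refine Finset.sum_congr rfl fun i _ => ?_
      rw [Finset.mul_sum]
      refine Finset.sum_congr rfl fun j _ => ?_
      ring
    simp only [a2, Finset.sum_neg_distrib]
    exact congrArg Neg.neg
      (sum4 fun i j k l => (Q x)⁻¹ j i * (Q x)⁻¹ l k * crv H x i j k l)
  rw [e3, KKt, AAt]
  simp only [Complex.add_re, Complex.neg_re]
  rw [← sub_eq_add_neg]
  rfl

end Pool.Agent.Helper80.HS
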