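import Pool.Agent.Helper80.HS.MCAL
import Pool.Agent.Helper95.Lin.Basics

/-! # CSY: symmetries of the curvature; PARP: holomorphic orthogonal projectors are parallel -/

open Complex Metric Set Filter Topology MeasureTheory
open scoped ContDiff ComplexConjugate ComplexOrder Manifold Matrix

namespace Pool.Agent.Helper80.HS

open Pool.Agent.Helper95.Lin Pool.Agent.Helper16.Abund Pool.Agent.Helper92.Orb
  Pool.Agent.Helper10.SP Pool.Agent.Helper95.RK Pool.Agent.Helper57.HS Pool.Agent.Helper15.HS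
  Pool.Agent.Helper16.RK

variable {n m : ℕ} {W : Set (Cn n)} {x : Cn n}

theorem cdM_congr (hW : IsOpen W) (hx : x ∈ W) {X Y : Cn n → Matrix (Fin m) (Fin m) ℂ}
    (h : ∀ y ∈ W, X y = Y y) (k : Fin n) : cdM k X x = cdM k Y x ∧ cdbM k X x = cdbM k Y x := by
  constructor
  · ext i j
    exact (Pool.Agent.Helper83.SP.cd_congr hW (fun y hy => by rw [h y hy]) k hx).1
  · ext i j
    exact (Pool.Agent.Helper83.SP.cd_congr hW (fun y hy => by rw [h y hy]) k hx).2

/-- For a Hermitian field `cdM k H = (cdbM k H)ᴴ`. -/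
theorem cdM_herm (hMCAL : S_MCAL) (hW : IsOpen W) (H : Cn n → Matrix (Fin m) (Fin m) ℂ)
    (hs : ∀ i j, ContDiffOn ℝ ∞ (fun x => H x i j) W) (hh : ∀ x ∈ W, (H x).IsHermitian)
    (hx : x ∈ W) (k : Fin n) :
    cdM k H x = (cdbM k H x)ᴴ ∧ cdbM k H x = (cdM k H x)ᴴ := by
  have h1 := ((hMCAL W hW H H hs hs).2.2.1 x hx k).2.2
  have h2 := cdM_congr hW hx (X := H) (Y := fun y => (H y)ᴴ) (fun y hy => (hh y hy).symm) k
  exact ⟨h2.1.trans h1.1, h2.2.trans h1.2.1⟩

/-- Mixed derivatives of the connection. -/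
theorem cdbM_Gam (hMCAL : S_MCAL) (hW : IsOpen W) (H : Cn n → Matrix (Fin n) (Fin n) ℂ)
    (hs : ∀ i j, ContDiffOn ℝ ∞ (fun x => H x i j) W) (hd : ∀ x ∈ W, (H x).det ≠ 0)
    (hx : x ∈ W) (k l : Fin n) :
    cdbM l (Gam H k) x * H x =
      cdM k (cdbM l H) x - cdM k H x * (H x)⁻¹ * cdbM l H x := by
  have hu : IsUnit (H x).det := (hd x hx).isUnit
  have h1 := (hMCAL W hW H H hs hs).1
  have h4 := (hMCAL W hW H H hs hs).2.2.2.1 hd
  have h2 := ((hMCAL W hW (cdM k H) (fun y => (H y)⁻¹) (fun i j => (h1 k i j).1) h4.1).2.2.1 x hx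
    l).2.1
  have h3 := (h4.2 x hx l).2
  have h5 := ((hMCAL W hW H H hs hs).2.2.1 x hx k).2.2.2.2 l
  have h6 : cdbM l (Gam H k) x = cdbM l (fun y => cdM k H y * (H y)⁻¹) x := rfl
  rw [h6, h2, h3, h5, add_mul, Matrix.mul_assoc _ (H x)⁻¹ (H x), Matrix.nonsing_inv_mul _ hu,
    Matrix.mul_one, Matrix.mul_neg, Matrix.neg_mul, ← sub_eq_add_neg]
  congr 1
  rw [Matrix.mul_assoc (cdM k H x), Matrix.mul_assoc ((H x)⁻¹ * cdbM l H x) (H x)⁻¹ (H x),
    Matrix.nonsing_inv_mul _ hu, Matrix.mul_one, Matrix.mul_assoc]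

theorem crv_eq (hMCAL : S_MCAL) (hW : IsOpen W) (H : Cn n → Matrix (Fin n) (Fin n) ℂ)
    (hs : ∀ i j, ContDiffOn ℝ ∞ (fun x => H x i j) W) (hd : ∀ x ∈ W, (H x).det ≠ 0)
    (hx : x ∈ W) (i j k l : Fin n) :
    crv H x i j k l = - (cdbM l (Gam H k) x * H x) i j := by
  rw [cdbM_Gam hMCAL hW H hs hd hx k l]
  simp only [Matrix.sub_apply, crv, neg_sub]
  rw [sub_eq_neg_add]
  rfl

theorem csy (hWIRT : S_WIRT) (hMCAL : S_MCAL) : S_CSY := by
  intro n W hW H hp hs x hx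
  have hd : ∀ x ∈ W, (H x).det ≠ 0 := fun y hy => posDef_det_ne (hp y hy)
  have hh : ∀ x ∈ W, (H x).IsHermitian := fun y hy => (hp y hy).1
  have hu : IsUnit (H x).det := (hd x hx).isUnit
  have h1 := (hMCAL W hW H H hs hs).1
  have hC : ∀ i j k l, conj (crv H x i j k l) = crv H x j i l k := by
    intro i j k l
    have e1 : conj (cd k (cdb l fun y => H y i j) x) = cd l (cdb k fun y => H y j i) x := by
      have a1 : cd k (cdb l fun y => H y i j) x = (cdM k (cdbM l H) x) i j := rfl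
      have a2 := (cdM_congr hW hx (X := cdbM l H) (Y := fun y => (cdM l H y)ᴴ)
        (fun y hy => (cdM_herm hMCAL hW H hs hh hy l).2) k).1
      have a3 := ((hMCAL W hW (cdM l H) (cdM l H) (fun i j => (h1 l i j).1)
        (fun i j => (h1 l i j).1)).2.2.1 x hx k).2.2.1
      have a4 := ((hMCAL W hW H H hs hs).2.2.1 x hx l).2.2.2.2 k
      rw [a1, a2, a3, ← a4, Matrix.conjTranspose_apply]
      simp only [Complex.star_def, Complex.conj_conj]
      rfl
    have e2 : (cdM k H x * (H x)⁻¹ * cdbM l H x)ᴴ = cdM l H x * (H x)⁻¹ * cdbM k H x := by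
      rw [Matrix.conjTranspose_mul, Matrix.conjTranspose_mul,
        ← (cdM_herm hMCAL hW H hs hh hx l).1, ← (cdM_herm hMCAL hW H hs hh hx k).2,
        ((hh x hx).inv).eq, Matrix.mul_assoc]
    have e3 : conj ((cdM k H x * (H x)⁻¹ * cdbM l H x) i j) =
        (cdM l H x * (H x)⁻¹ * cdbM k H x) j i := by
      rw [← e2, Matrix.conjTranspose_apply]
      rfl
    simp only [crv, map_add, map_neg, e1, e3]
  refine ⟨fun i j k l => crv_eq hMCAL hW H hs hd hx i j k l, hC, fun hH => ?_⟩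
  have hS : ∀ i j k l, crv H x i j k l = crv H x k j i l := by
    intro i j k l
    have b1 : ∀ y ∈ W, ∀ p, cd k (fun y => H y i p) y = cd i (fun y => H y k p) y :=
      fun y hy p => hH.closed y hy i p k
    have b2 : cd k (cdb l fun y => H y i j) x = cd i (cdb l fun y => H y k j) x := by
      rw [((hWIRT W hW _ _ (hs i j) (hs i j)).2.2.2.2.1 k l x hx).2.2,
        ((hWIRT W hW _ _ (hs k j) (hs k j)).2.2.2.2.1 i l x hx).2.2]
      exact (Pool.Agent.Helper83.SP.cd_congr hW (fun y hy => b1 y hy j) l hx).2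
    simp only [crv, b2, Matrix.mul_apply]
    congr 1
    refine Finset.sum_congr rfl fun q _ => ?_
    congr 1
    refine Finset.sum_congr rfl fun p _ => ?_
    rw [cdM_apply, cdM_apply, b1 x hx p]
  have hT : ∀ i j k l, crv H x i j k l = crv H x i l k j := by
    intro i j k l
    rw [← Complex.conj_conj (crv H x i j k l), hC, hS, hC]
  refine ⟨fun i j k l => ⟨hS i j k l, hT i j k l⟩, fun i j => ?_⟩
  have c1 : ∀ k l, crv H x i j k l = crv H x k l i j := fun k l => by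
    rw [hS, hT]
  have c2 : ∑ k, ∑ l, (H x)⁻¹ l k * crv H x i j k l =
      - Matrix.trace (cdbM j (Gam H i) x * H x * (H x)⁻¹) := by
    rw [Matrix.trace, ← Finset.sum_neg_distrib]
    refine Finset.sum_congr rfl fun k _ => ?_
    rw [Matrix.diag_apply, Matrix.mul_apply, ← Finset.sum_neg_distrib]
    refine Finset.sum_congr rfl fun l _ => ?_
    rw [c1, crv_eq hMCAL hW H hs hd hx k l i j]
    ring
  have hG : ∀ p q, ContDiffOn ℝ ∞ (fun y => Gam H i y p q) W := by
    have h4 := ((hMCAL W hW H H hs hs).2.2.2.1 hd).1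
    exact (hMCAL W hW (cdM i H) (fun y => (H y)⁻¹) (fun a b => (h1 i a b).1) h4).2.1
  have hL := (hMCAL W hW H H hs hs).2.2.2.2 hp
  have hLs : ContDiffOn ℝ ∞ (fun y => ((ld H y : ℝ) : ℂ)) W :=
    Complex.ofRealCLM.contDiff.comp_contDiffOn hL.1
  rw [c2, Matrix.mul_assoc, Matrix.mul_nonsing_inv _ hu, Matrix.mul_one]
  congr 1
  have c3 : Matrix.trace (cdbM j (Gam H i) x) = cdb j (fun y => ∑ p, Gam H i y p p) x := by
    rw [(isDer_cdb hWIRT hW hx j).sum Finset.univ (fun p y => Gam H i y p p)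
      (fun p _ => hG p p)]
    rfl
  have c4 : cdb j (fun y => ∑ p, Gam H i y p p) x =
      cdb j (cd i (fun y => ((ld H y : ℝ) : ℂ))) x := by
    refine (Pool.Agent.Helper83.SP.cd_congr hW (fun y hy => ?_) j hx).2
    exact ((hL.2 y hy i).1).symm
  rw [c3, c4, ← ((hWIRT W hW _ _ hLs hLs).2.2.2.2.1 i j x hx).2.2]
  rfl

theorem parp (hWIRT : S_WIRT) (hMCAL : S_MCAL) : S_PARP := by
  intro n W hW H P hp hs hP hPH x hx
  have hd : ∀ x ∈ W, (H x).det ≠ 0 := fun y hy => posDef_det_ne (hp y hy)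
  have hh : ∀ x ∈ W, (H x).IsHermitian := fun y hy => (hp y hy).1
  have hPs : ∀ i j, ContDiffOn ℝ ∞ (fun x => P x i j) W := fun i j =>
    holo_contDiffOn_real hW (hP i j)
  have hPb : ∀ y ∈ W, ∀ l, cdbM l P y = 0 := by
    intro y hy l
    ext i j
    exact ((hWIRT W hW _ _ (hPs i j) (hPs i j)).2.2.2.2.2.2 (hP i j)) l y hy
  have h1 := (hMCAL W hW H H hs hs).1
  have hPHs : ∀ i j, ContDiffOn ℝ ∞ (fun y => (P y * H y) i j) W :=
    (hMCAL W hW P H hPs hs).2.1
  have hPHh : ∀ y ∈ W, (P y * H y).IsHermitian := by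
    intro y hy
    rw [Matrix.IsHermitian, Matrix.conjTranspose_mul, (hh y hy).eq, ← hPH y hy]
  have hB : ∀ y ∈ W, ∀ l, cdM l (fun y => P y * H y) y = Gam H l y * (P y * H y) := by
    intro y hy l
    have hu : IsUnit (H y).det := (hd y hy).isUnit
    rw [(cdM_herm hMCAL hW (fun y => P y * H y) hPHs hPHh hy l).1,
      ((hMCAL W hW P H hPs hs).2.2.1 y hy l).2.1, hPb y hy l, Matrix.zero_mul, zero_add,
      Matrix.conjTranspose_mul, ← (cdM_herm hMCAL hW H hs hh hy l).1, hPH y hy, Gam,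
      Matrix.mul_assoc, ← Matrix.mul_assoc (H y)⁻¹, Matrix.nonsing_inv_mul _ hu, Matrix.one_mul]
  have hA : ∀ y ∈ W, ∀ l, cdM l P y = Gam H l y * P y - P y * Gam H l y := by
    intro y hy l
    have hu : IsUnit (H y).det := (hd y hy).isUnit
    have e1 := ((hMCAL W hW P H hPs hs).2.2.1 y hy l).1
    rw [hB y hy l] at e1
    have e2 : cdM l H y = Gam H l y * H y := by
      rw [Gam, Matrix.mul_assoc, Matrix.nonsing_inv_mul _ hu, Matrix.mul_one]
    rw [e2] at e1
    have e3 : cdM l P y * H y = (Gam H l y * P y - P y * Gam H l y) * H y := by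
      rw [Matrix.sub_mul, Matrix.mul_assoc (Gam H l y), e1, Matrix.mul_assoc (P y)]
      abel
    calc cdM l P y = cdM l P y * H y * (H y)⁻¹ := by
          rw [Matrix.mul_assoc, Matrix.mul_nonsing_inv _ hu, Matrix.mul_one]
      _ = Gam H l y * P y - P y * Gam H l y := by
          rw [e3, Matrix.mul_assoc, Matrix.mul_nonsing_inv _ hu, Matrix.mul_one]
  intro l
  refine ⟨hA x hx l, hB x hx l, fun k => ?_⟩
  have hG : ∀ p q, ContDiffOn ℝ ∞ (fun y => Gam H l y p q) W := by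
    have h4 := ((hMCAL W hW H H hs hs).2.2.2.1 hd).1
    exact (hMCAL W hW (cdM l H) (fun y => (H y)⁻¹) (fun a b => (h1 l a b).1) h4).2.1
  have e1 : cdbM k (cdM l P) x = 0 := by
    rw [← ((hMCAL W hW P P hPs hPs).2.2.1 x hx l).2.2.2.2 k]
    have := (cdM_congr hW hx (X := cdbM k P) (Y := fun _ => 0) (fun y hy => hPb y hy k) l).1
    rw [this]
    ext i j
    exact (Pool.Agent.Helper83.SP.cd_const 0 l x).1
  have e2 := (cdM_congr hW hx (X := cdM l P) (Y := fun y => Gam H l y * P y - P y * Gam H l y)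
    (fun y hy => hA y hy l) k).2
  have e3 : cdbM k (fun y => Gam H l y * P y - P y * Gam H l y) x =
      cdbM k (fun y => Gam H l y * P y) x - cdbM k (fun y => P y * Gam H l y) x := by
    ext i j
    exact (isDer_cdb hWIRT hW hx k).sub _ _ ((hMCAL W hW (Gam H l) P hG hPs).2.1 i j)
      ((hMCAL W hW P (Gam H l) hPs hG).2.1 i j)
  rw [e1, e3, ((hMCAL W hW (Gam H l) P hG hPs).2.2.1 x hx k).2.1,
    ((hMCAL W hW P (Gam H l) hPs hG).2.2.1 x hx k).2.1, hPb x hx k, Matrix.mul_zero, add_zero,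
    Matrix.zero_mul, zero_add] at e2
  exact (sub_eq_zero.1 e2.symm)

end Pool.Agent.Helper80.HS
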