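import Pool.Agent.Helper45.HS.GoalsC
import Pool.Agent.Helper80.HS.CL

/-! # CALI, CLI: the inequalities of Calabi and of Chern and Lu on the compact set -/

open Complex Metric Set Filter Topology MeasureTheory
open scoped ContDiff ComplexConjugate ComplexOrder Manifold Matrix

namespace Pool.Agent.Helper80.HS

open Pool.Agent.Helper95.Lin Pool.Agent.Helper16.Abund Pool.Agent.Helper92.Orb
  Pool.Agent.Helper10.SP Pool.Agent.Helper95.RK Pool.Agent.Helper57.HS Pool.Agent.Helper45.HS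

variable {n : ℕ}

/-! ## Bounds for the entries -/

theorem eb_mono {M : Matrix (Fin n) (Fin n) ℂ} {a b : ℝ} (h : EB M a) (hab : a ≤ b) : EB M b :=
  fun i j => (h i j).trans hab

theorem eb_add {M N : Matrix (Fin n) (Fin n) ℂ} {a b : ℝ} (h : EB M a) (h' : EB N b) :
    EB (M + N) (a + b) :=
  fun i j => (norm_add_le _ _).trans (add_le_add (h i j) (h' i j))

theorem eb_neg {M : Matrix (Fin n) (Fin n) ℂ} {a : ℝ} (h : EB M a) : EB (-M) a := by
  intro i j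
  rw [Matrix.neg_apply, norm_neg]
  exact h i j

theorem eb_sub {M N : Matrix (Fin n) (Fin n) ℂ} {a b : ℝ} (h : EB M a) (h' : EB N b) :
    EB (M - N) (a + b) := by
  rw [sub_eq_add_neg]
  exact eb_add h (eb_neg h')

theorem eb_smul {M : Matrix (Fin n) (Fin n) ℂ} {a : ℝ} (h : EB M a) {c : ℂ} {d : ℝ}
    (hc : ‖c‖ ≤ d) : EB (c • M) (d * a) := by
  intro i j
  rw [Matrix.smul_apply, smul_eq_mul, norm_mul]
  exact mul_le_mul hc (h i j) (norm_nonneg _) ((norm_nonneg _).trans hc)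

theorem eb_sum {F : Fin n → Matrix (Fin n) (Fin n) ℂ} {a : ℝ} (h : ∀ p, EB (F p) a) :
    EB (∑ p, F p) (n * a) := by
  intro i j
  rw [Matrix.sum_apply]
  calc ‖∑ p, F p i j‖ ≤ ∑ p : Fin n, a := (norm_sum_le _ _).trans
        (Finset.sum_le_sum fun p _ => h p i j)
    _ = n * a := by simp

theorem eb_mul {M N : Matrix (Fin n) (Fin n) ℂ} {a b : ℝ} (h : EB M a) (h' : EB N b) :
    EB (M * N) (n * (a * b)) := by
  intro i j
  rw [Matrix.mul_apply]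
  calc ‖∑ p, M i p * N p j‖ ≤ ∑ p : Fin n, a * b := (norm_sum_le _ _).trans
        (Finset.sum_le_sum fun p _ => by
          rw [norm_mul]
          exact mul_le_mul (h i p) (h' p j) (norm_nonneg _) ((norm_nonneg _).trans (h i p)))
    _ = n * (a * b) := by simp

/-- Finitely many continuous matrix functions are bounded on a compact set. -/
theorem bdM {ι : Type*} [Fintype ι] {C : Set (Cn n)} (hC : IsCompact C)
    (F : ι → Cn n → Matrix (Fin n) (Fin n) ℂ)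
    (hF : ∀ a i j, ContinuousOn (fun x => F a x i j) C) :
    ∃ κ : ℝ, 1 ≤ κ ∧ ∀ a, ∀ x ∈ C, EB (F a x) κ := by
  have h1 : ContinuousOn (fun x => (fun q : ι × Fin n × Fin n => F q.1 x q.2.1 q.2.2)) C :=
    continuousOn_pi.2 fun q => hF q.1 q.2.1 q.2.2
  obtain ⟨K, hK⟩ := hC.exists_bound_of_continuousOn h1
  refine ⟨max K 1, le_max_right _ _, fun a x hx i j => ?_⟩
  exact ((norm_le_pi_norm (fun q : ι × Fin n × Fin n => F q.1 x q.2.1 q.2.2) (a, i, j)).trans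
    (hK x hx)).trans (le_max_left _ _)

/-- The bound of `TAk`. -/
theorem tak_bound (H Q η : Cn n → Matrix (Fin n) (Fin n) ℂ) (k : Fin n) (x : Cn n)
    {κ a q : ℝ}
    (h1 : EB (cdM k η x) κ) (h2 : EB (η x) κ) (h3 : ∀ p, EB (Gam H p x) κ)
    (h4 : ∀ k q, EB (Rme H k q x) κ)
    (h5 : ∀ p q k, EB (nab (Gam H) p (fun m => Rme H m q) k x) κ)
    (h6 : ∀ p, EB (Adf H Q p x) a) (h7 : EB (Q x)⁻¹ q) :
    EB (TAk H Q η k x) (n * ((κ + n * ((a + κ) * κ)) * q) +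
      n * (n * (q * (κ + (n * (a * κ) + n * (κ * a)) + n * (a * κ))))) := by
  have hG : EB (Gam Q k x) (a + κ) := by
    have e : Gam Q k x = Adf H Q k x + Gam H k x := by rw [Adf, sub_add_cancel]
    rw [e]
    exact eb_add (h6 k) (h3 k)
  unfold TAk
  refine eb_add (eb_neg (eb_mul (eb_sub h1 (eb_mul hG h2)) h7)) ?_
  refine eb_sum fun p => eb_sum fun r => eb_smul ?_ (h7 r p)
  exact eb_sub (eb_sub (h5 p r k) (eb_sub (eb_mul (h6 p) (h4 k r)) (eb_mul (h4 k r) (h6 p))))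
    (eb_sum fun m => eb_smul (h4 m r) (h6 p k m))

/-- The bound of `actZ`. -/
theorem actZ_bound {Z : Matrix (Fin n) (Fin n) ℂ} {A : Fin n → Matrix (Fin n) (Fin n) ℂ}
    {z a : ℝ} (hZ : EB Z z) (hA : ∀ l, EB (A l) a) (l : Fin n) :
    EB (actZ Z A l) (n * (z * a) + n * (a * z) + n * (z * a)) := by
  unfold actZ
  exact eb_add (eb_sub (eb_mul hZ (hA l)) (eb_mul (hA l) hZ))
    (eb_sum fun m => eb_smul (hA m) (hZ l m))

/-- The numerical conclusion of `cali`. -/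
theorem cali_num {c C₁ C₂ Λ a S r₁ r₂ : ℝ} (hc1 : 1 ≤ c) (hC₁0 : 0 ≤ C₁) (hC₂0 : 0 ≤ C₂)
    (hΛ : 1 ≤ Λ) (ha0 : 0 ≤ a) (ha2 : a ^ 2 = c * Λ ^ 3 * S) (hS0 : 0 ≤ S)
    (g1 : -(c * Λ ^ 3 * (C₁ * Λ * (1 + a)) * a) ≤ r₁)
    (g2 : -(c * Λ ^ 3 * a * (C₂ * Λ * a)) ≤ r₂) :
    -(((4 * c * C₁ + c * C₂) * c + 1) * Λ ^ 7 * (1 + S)) ≤ 2 * r₁ + r₂ := by
  have hΛ0 : 0 ≤ Λ := by linarith
  have hc0 : 0 ≤ c := by linarith
  have k1 : (1 + a) * a ≤ 2 * (1 + a ^ 2) := by nlinarith [sq_nonneg (a - 1)]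
  have k2 : 2 * (c * Λ ^ 3 * (C₁ * Λ * (1 + a)) * a) + c * Λ ^ 3 * a * (C₂ * Λ * a) ≤
      (4 * c * C₁ + c * C₂) * Λ ^ 4 * (1 + a ^ 2) := by
    have e1 : 2 * (c * Λ ^ 3 * (C₁ * Λ * (1 + a)) * a) = 2 * c * C₁ * Λ ^ 4 * ((1 + a) * a) := by
      ring
    have e2 : c * Λ ^ 3 * a * (C₂ * Λ * a) = c * C₂ * Λ ^ 4 * a ^ 2 := by ring
    have e3 : 2 * c * C₁ * Λ ^ 4 * ((1 + a) * a) ≤ 2 * c * C₁ * Λ ^ 4 * (2 * (1 + a ^ 2)) :=
      mul_le_mul_of_nonneg_left k1 (by positivity)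
    have e4 : c * C₂ * Λ ^ 4 * a ^ 2 ≤ c * C₂ * Λ ^ 4 * (1 + a ^ 2) :=
      mul_le_mul_of_nonneg_left (by linarith) (by positivity)
    rw [e1, e2]
    calc _ ≤ 2 * c * C₁ * Λ ^ 4 * (2 * (1 + a ^ 2)) + c * C₂ * Λ ^ 4 * (1 + a ^ 2) :=
          add_le_add e3 e4
      _ = _ := by ring
  have k3 : 1 + a ^ 2 ≤ c * Λ ^ 3 * (1 + S) := by
    rw [ha2]
    have h3 : 1 ≤ Λ ^ 3 := one_le_pow₀ hΛ
    have : 1 ≤ c * Λ ^ 3 := one_le_mul_of_one_le_of_one_le hc1 h3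
    linarith
  have k4 : (4 * c * C₁ + c * C₂) * Λ ^ 4 * (1 + a ^ 2) ≤
      (4 * c * C₁ + c * C₂) * Λ ^ 4 * (c * Λ ^ 3 * (1 + S)) :=
    mul_le_mul_of_nonneg_left k3 (by positivity)
  have k5 : (4 * c * C₁ + c * C₂) * Λ ^ 4 * (c * Λ ^ 3 * (1 + S)) ≤
      ((4 * c * C₁ + c * C₂) * c + 1) * Λ ^ 7 * (1 + S) := by
    have : ((4 * c * C₁ + c * C₂) * c + 1) * Λ ^ 7 * (1 + S) -
      (4 * c * C₁ + c * C₂) * Λ ^ 4 * (c * Λ ^ 3 * (1 + S)) = Λ ^ 7 * (1 + S) := by ring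
    have h0 : 0 ≤ Λ ^ 7 * (1 + S) := by positivity
    linarith
  linarith

theorem cali (hLAPS : S_LAPS) (hIPB : S_IPB) (hCRV : Pool.Agent.Helper95.HS.S_CRV) : S_CALI := by
  intro n T G _ R H hH C hC b
  have hT : IsOpen T := hH.et.isOpen
  have hsmH : SmM H T := hH.smooth
  have hd : ∀ x ∈ T, (H x).det ≠ 0 := fun y hy => (hH.posDef y hy).det_pos.ne'
  have hHc : CHF H T := ⟨hH.smooth, fun x hx => (hH.posDef x hx).1, hH.closed⟩
  have hG : ∀ k, SmM (Gam H k) T := fun k => (hCRV T hT H hHc hH.posDef).2.1 k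
  have hR : ∀ k q, SmM (Rme H k q) T := fun k q => ((hG k).cdbM hT q).neg
  have hN : ∀ p q k, SmM (nab (Gam H) p (fun m => Rme H m q) k) T := by
    intro p q k
    unfold nab
    exact ((((hR k q).cdM hT p).sub (((hG p).mul (hR k q)).sub ((hR k q).mul (hG p)))).sub
      (SmM.sum _ fun m _ => SmM.smul (hG p k m) (hR m q)))
  have cts : ∀ {X : Cn n → Matrix (Fin n) (Fin n) ℂ}, SmM X T → ∀ i j,
      ContinuousOn (fun x => X x i j) C := fun hX i j => ((hX i j).continuousOn).mono hC.1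
  obtain ⟨κ₁, hκ₁, hb₁⟩ := bdM (ι := Unit) hC.2.1 (fun _ => H) fun _ => cts hsmH
  obtain ⟨κ₂, hκ₂, hb₂⟩ := bdM (ι := Unit) hC.2.1 (fun _ x => (H x)⁻¹) fun _ => cts (hsmH.inv hd)
  obtain ⟨κ₃, hκ₃, hb₃⟩ := bdM hC.2.1 (fun k => Gam H k) fun k => cts (hG k)
  obtain ⟨κ₄, hκ₄, hb₄⟩ := bdM hC.2.1 (fun q : Fin n × Fin n => Rme H q.1 q.2) fun q =>
    cts (hR q.1 q.2)
  obtain ⟨κ₅, hκ₅, hb₅⟩ := bdM hC.2.1 (fun q : Fin n × Fin n × Fin n =>
    nab (Gam H) q.1 (fun m => Rme H m q.2.1) q.2.2) fun q => cts (hN q.1 q.2.1 q.2.2)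
  set κ : ℝ := κ₁ + κ₂ + κ₃ + κ₄ + κ₅ + |b| with hκdef
  have hb0 : 0 ≤ |b| := abs_nonneg b
  have hκ1 : 1 ≤ κ := by linarith
  have hκ0 : 0 ≤ κ := by linarith
  obtain ⟨c, hc1, hc⟩ := hIPB n κ hκ1
  have hc0 : 0 ≤ c := by linarith
  have hn0 : (0 : ℝ) ≤ n := Nat.cast_nonneg n
  set C₁ : ℝ := n * c * (κ + n * κ * κ + n * κ) + n * n * c * (κ + 3 * n * κ) with hC₁
  set C₂ : ℝ := 3 * n * (1 + n * κ * c) with hC₂
  have hC₁0 : 0 ≤ C₁ := by positivity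
  have hC₂0 : 0 ≤ C₂ := by positivity
  refine ⟨(4 * c * C₁ + c * C₂) * c + 1, by positivity, ?_⟩
  intro Λ Q η hY x hx
  have hxT : x ∈ T := hC.1 hx
  have hΛ := hY.one_le
  have hΛ0 : 0 ≤ Λ := by linarith
  have hHx := hH.posDef x hxT
  have hQx := hY.ket.posDef x hxT
  have hQc : CHF Q T := ⟨hY.ket.smooth, fun x hx => (hY.ket.posDef x hx).1, hY.ket.closed⟩
  obtain ⟨hq1, hq2, hq3, hq4⟩ := hc Λ (H x) (Q x) hΛ hHx hQx
    (eb_mono (hb₁ () x hx) (by linarith)) (eb_mono (hb₂ () x hx) (by linarith))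
    (hY.le x hxT).1 (hY.le x hxT).2
  set A : Fin n → Matrix (Fin n) (Fin n) ℂ := fun k => Adf H Q k x with hA
  set S : ℝ := AQt H Q x with hS
  have hSA : S = (ipA (Q x) A A).re := rfl
  have hS0 : 0 ≤ S := by
    have := sum_tr_nonneg hQx.inv.posSemidef A hQx.posSemidef hQx.inv.posSemidef
    exact (Complex.nonneg_iff.1 this).1
  set a : ℝ := Real.sqrt (c * Λ ^ 3 * S) with ha
  have ha0 : 0 ≤ a := Real.sqrt_nonneg _
  have ha2 : a ^ 2 = c * Λ ^ 3 * S := Real.sq_sqrt (by positivity)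
  have hAa : ∀ k, EB (A k) a := by
    intro k i j
    rw [ha]
    refine Real.le_sqrt_of_sq_le ?_
    rw [hSA]
    exact (hq4 A).1 k i j
  have hT1 : ∀ k, EB (TAk H Q η k x) (C₁ * Λ * (1 + a)) := by
    intro k
    refine eb_mono (tak_bound (κ := κ) (a := a) (q := c * Λ) H Q η k x
      (fun i j => ((hY.bd x hx i j).2 k).trans ?_) (fun i j => (hY.bd x hx i j).1.trans ?_)
      (fun p => eb_mono (hb₃ p x hx) (by linarith))
      (fun k q => eb_mono (hb₄ (k, q) x hx) (by linarith))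
      (fun p q k => eb_mono (hb₅ (p, q, k) x hx) (by linarith)) hAa hq2) ?_
    · linarith [le_abs_self b]
    · linarith [le_abs_self b]
    · have e1 : n * ((κ + n * ((a + κ) * κ)) * (c * Λ)) ≤
          n * c * (κ + n * κ * κ + n * κ) * Λ * (1 + a) := by
        have : n * c * (κ + n * κ * κ + n * κ) * Λ * (1 + a) -
          n * ((κ + n * ((a + κ) * κ)) * (c * Λ)) =
            n * c * Λ * (n * κ + (κ + n * κ * κ) * a) := by ring
        have h0 : 0 ≤ n * c * Λ * (n * κ + (κ + n * κ * κ) * a) := by positivity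
        linarith
      have e2 : n * (n * (c * Λ * (κ + (n * (a * κ) + n * (κ * a)) + n * (a * κ)))) ≤
          n * n * c * (κ + 3 * n * κ) * Λ * (1 + a) := by
        have : n * n * c * (κ + 3 * n * κ) * Λ * (1 + a) -
          n * (n * (c * Λ * (κ + (n * (a * κ) + n * (κ * a)) + n * (a * κ)))) =
            n * n * c * Λ * (3 * n * κ + κ * a) := by ring
        have h0 : 0 ≤ n * n * c * Λ * (3 * n * κ + κ * a) := by positivity
        linarith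
      rw [hC₁]
      linarith
  have hZ : EB (-1 + η x * (Q x)⁻¹) ((1 + n * κ * c) * Λ) := by
    have h1 : EB (-1 : Matrix (Fin n) (Fin n) ℂ) 1 := by
      intro i j
      rw [Matrix.neg_apply, norm_neg, Matrix.one_apply]
      split_ifs <;> simp
    refine eb_mono (eb_add h1 (eb_mul (fun i j => (hY.bd x hx i j).1) hq2)) ?_
    have : b ≤ κ := by linarith [le_abs_self b]
    have h2 : n * (b * (c * Λ)) ≤ n * (κ * (c * Λ)) := by gcongr
    nlinarith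
  have hZA : ∀ l, EB (actZ (-1 + η x * (Q x)⁻¹) A l) (C₂ * Λ * a) := by
    intro l
    refine eb_mono (actZ_bound hZ hAa l) (le_of_eq ?_)
    rw [hC₂]; ring
  have hL := (hLAPS T hT H Q η hHc hH.posDef hQc hY.ket.posDef hY.sm hY.eq).2 x hxT
  refine le_trans ?_ hL
  have p1 : 0 ≤ C₁ * Λ * (1 + a) := by positivity
  have p2 : 0 ≤ C₂ * Λ * a := by positivity
  have n1 := hq3 (fun k => TAk H Q η k x) (fun k => Adf H Q k x) (C₁ * Λ * (1 + a)) a p1 ha0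
    hT1 hAa
  have n2 := hq3 (fun k => Adf H Q k x)
    (fun l => actZ (-1 + η x * (Q x)⁻¹) (fun k => Adf H Q k x) l) a (C₂ * Λ * a) ha0 p2 hAa hZA
  have g1 := (abs_le.1 ((Complex.abs_re_le_norm _).trans n1)).1
  have g2 := (abs_le.1 ((Complex.abs_re_le_norm _).trans n2)).1
  exact cali_num hc1 hC₁0 hC₂0 hΛ ha0 ha2 hS0 g1 g2

theorem cli (hCL : Pool.Agent.Helper15.HS.S_CL) (hIPB : S_IPB)
    (hCRV : Pool.Agent.Helper95.HS.S_CRV) : S_CLI := by
  intro n T G _ R H hH C hC b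
  have hT : IsOpen T := hH.et.isOpen
  have hsmH : SmM H T := hH.smooth
  have hd : ∀ x ∈ T, (H x).det ≠ 0 := fun y hy => (hH.posDef y hy).det_pos.ne'
  have hHc : CHF H T := ⟨hH.smooth, fun x hx => (hH.posDef x hx).1, hH.closed⟩
  have cts : ∀ {X : Cn n → Matrix (Fin n) (Fin n) ℂ}, SmM X T → ∀ i j,
      ContinuousOn (fun x => X x i j) C := fun hX i j => ((hX i j).continuousOn).mono hC.1
  obtain ⟨κ₁, hκ₁, hb₁⟩ := bdM (ι := Unit) hC.2.1 (fun _ => H) fun _ => cts hsmH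
  obtain ⟨κ₂, hκ₂, hb₂⟩ := bdM (ι := Unit) hC.2.1 (fun _ x => (H x)⁻¹) fun _ => cts (hsmH.inv hd)
  obtain ⟨κ₃, hκ₃, hb₃⟩ := bdM hC.2.1
    (fun (q : Fin n × Fin n) x => Matrix.of fun i j => crv H x i j q.1 q.2)
    fun q i j => (((hCRV T hT H hHc hH.posDef).1 i j q.1 q.2).continuousOn).mono hC.1
  set κ : ℝ := κ₁ + κ₂ + κ₃ + |b| with hκdef
  have hb0 : 0 ≤ |b| := abs_nonneg b
  have hκ1 : 1 ≤ κ := by linarith
  have hκ0 : 0 ≤ κ := by linarith
  obtain ⟨c, hc1, hc⟩ := hIPB n κ hκ1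
  have hc0 : 0 ≤ c := by linarith
  have hn0 : (0 : ℝ) ≤ n := Nat.cast_nonneg n
  have tr_bd : ∀ {M : Matrix (Fin n) (Fin n) ℂ} {r : ℝ}, EB M r → ‖Matrix.trace M‖ ≤ n * r := by
    intro M r h
    rw [Matrix.trace]
    calc ‖∑ i, Matrix.diag M i‖ ≤ ∑ i : Fin n, r := (norm_sum_le _ _).trans
          (Finset.sum_le_sum fun p _ => h p p)
      _ = n * r := by simp
  set K : ℝ := n * (n * (κ * c)) + n * (n * (n * (n * (κ * c) * κ) * c)) +
    n * n * n * n * (c * c * κ) + 1 with hK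
  refine ⟨K, by positivity, ?_⟩
  intro Λ Q η hY
  have hΛ := hY.one_le
  have hΛ0 : 0 < Λ := by linarith
  refine ⟨fun x hxT => ?_, fun x hx => ?_⟩
  · have h1 := tr_nonneg (hH.posDef x hxT).posSemidef (hY.ket.posDef x hxT).inv.posSemidef 1
    rw [Matrix.one_mul, Matrix.conjTranspose_one, Matrix.mul_one] at h1
    exact (Complex.nonneg_iff.1 h1).1
  have hxT : x ∈ T := hC.1 hx
  have hHx := hH.posDef x hxT
  have hQx := hY.ket.posDef x hxT
  have hQc : CHF Q T := ⟨hY.ket.smooth, fun x hx => (hY.ket.posDef x hx).1, hY.ket.closed⟩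
  have hEH : EB (H x) κ := eb_mono (hb₁ () x hx) (by linarith)
  obtain ⟨hq1, hq2, hq3, hq4⟩ := hc Λ (H x) (Q x) hΛ hHx hQx
    hEH (eb_mono (hb₂ () x hx) (by linarith)) (hY.le x hxT).1 (hY.le x hxT).2
  have t1 : (Matrix.trace (H x * (Q x)⁻¹)).re ≤ n * (n * (κ * (c * Λ))) :=
    (Complex.re_le_norm _).trans (tr_bd (eb_mul hEH hq2))
  have hbκ : b ≤ κ := by linarith [le_abs_self b]
  have hη : EB (η x) κ := fun i j => ((hY.bd x hx i j).1).trans hbκ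
  have t2 : -(n * (n * (n * (n * (κ * (c * Λ)) * κ) * (c * Λ)))) ≤
      (Matrix.trace (η x * (Q x)⁻¹ * H x * (Q x)⁻¹)).re :=
    (abs_le.1 ((Complex.abs_re_le_norm _).trans
      (tr_bd (eb_mul (eb_mul (eb_mul hη hq2) hEH) hq2)))).1
  have t3 : KKt H Q x ≤ n * (n * (n * (n * ((c * Λ) * (c * Λ) * κ)))) := by
    refine (Complex.re_le_norm _).trans ?_
    unfold crvP
    have s1 : ∀ {f : Fin n → ℂ} {r : ℝ}, (∀ i, ‖f i‖ ≤ r) → ‖∑ i, f i‖ ≤ n * r := by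
      intro f r h
      calc ‖∑ i, f i‖ ≤ ∑ i : Fin n, r := (norm_sum_le _ _).trans
            (Finset.sum_le_sum fun p _ => h p)
        _ = n * r := by simp
    refine s1 fun i => s1 fun j => s1 fun k => s1 fun l => ?_
    rw [norm_mul, norm_mul]
    have e : ‖crv H x i j k l‖ ≤ κ := (hb₃ (k, l) x hx i j).trans (by linarith)
    exact mul_le_mul (mul_le_mul (hq2 j i) (hq2 l k) (norm_nonneg _) (by positivity)) e
      (norm_nonneg _) (by positivity)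
  have hL := (hCL T hT Q H η hQc hY.ket.posDef hY.eq hH.smooth hH.posDef x hxT).2
  have t4 : Λ⁻¹ * AQt H Q x ≤ AAt H Q x := by
    have := (hq4 fun k => Adf H Q k x).2
    rw [inv_mul_le_iff₀ hΛ0]
    exact this
  have hΛ2 : Λ ≤ Λ ^ 2 := by nlinarith
  have hp1 : 0 ≤ n * (n * (κ * c)) := by positivity
  have hp2 : 0 ≤ n * (n * (n * (n * (κ * c) * κ) * c)) := by positivity
  have hp3 : 0 ≤ n * n * n * n * (c * c * κ) := by positivity
  constructor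
  · have : n * (n * (κ * (c * Λ))) = n * (n * (κ * c)) * Λ := by ring
    rw [this] at t1
    refine t1.trans ?_
    rw [hK]
    have h5 : 0 ≤ (n * (n * (n * (n * (κ * c) * κ) * c)) + n * n * n * n * (c * c * κ) + 1) * Λ := by
      positivity
    linarith
  · rw [hL]
    have f1 : n * (n * (κ * (c * Λ))) ≤ n * (n * (κ * c)) * Λ ^ 2 := by
      have : n * (n * (κ * (c * Λ))) = n * (n * (κ * c)) * Λ := by ring
      rw [this]
      exact mul_le_mul_of_nonneg_left hΛ2 hp1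
    have f2 : n * (n * (n * (n * (κ * (c * Λ)) * κ) * (c * Λ))) =
        n * (n * (n * (n * (κ * c) * κ) * c)) * Λ ^ 2 := by ring
    have f3 : n * (n * (n * (n * ((c * Λ) * (c * Λ) * κ)))) =
        n * n * n * n * (c * c * κ) * Λ ^ 2 := by ring
    have f4 : K * Λ ^ 2 = n * (n * (κ * c)) * Λ ^ 2 +
        n * (n * (n * (n * (κ * c) * κ) * c)) * Λ ^ 2 + n * n * n * n * (c * c * κ) * Λ ^ 2 +
        Λ ^ 2 := by rw [hK]; ring
    rw [f2] at t2
    rw [f3] at t3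
    have h0 : 0 ≤ Λ ^ 2 := by positivity
    linarith

end Pool.Agent.Helper80.HS
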